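import Pool.Agent.H474.MS.Stm

/-! # Project MS, L10 (helper118) -/

set_option autoImplicit false

open MeasureTheory Filter Topology Set

namespace Pool.Agent.H118.MS.L10

theorem cos_bd {x : ℝ} (h0 : 0 ≤ x) (h1 : x ≤ 1) : x ^ 2 ≤ 4 * (2 * (1 - Real.cos x)) := by
  have hpi := Real.pi_gt_three
  have hpi4 := Real.pi_le_four
  have h2 : Real.cos x ≤ 1 - 2 / Real.pi ^ 2 * x ^ 2 :=
    Real.cos_le_one_sub_mul_cos_sq (by rw [abs_of_nonneg h0]; linarith)
  have h3 : 1 / 8 ≤ 2 / Real.pi ^ 2 := by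
    rw [div_le_div_iff₀ (by norm_num) (by positivity)]
    nlinarith
  have h4 : 1 / 8 * x ^ 2 ≤ 2 / Real.pi ^ 2 * x ^ 2 :=
    mul_le_mul_of_nonneg_right h3 (sq_nonneg x)
  linarith

theorem t_L10 : Pool.Agent.H474.MS.S_L10 := by
  intro ι _ w g hd C hC
  refine ⟨4 * C, fun T hT => ?_⟩
  have hT0 : 0 < T := by linarith
  have h1 := hC (1 / T) (by positivity) (by rw [div_le_one hT0]; exact hT)
  have hs1 : Summable fun i => if g i ≤ T then w i * g i ^ 2 else 0 := by
    refine Summable.of_nonneg_of_le (fun i => ?_) (fun i => ?_) (hd.ws.mul_right (T ^ 2))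
    · split_ifs
      · exact mul_nonneg (hd.w0 i) (sq_nonneg _)
      · exact le_rfl
    · split_ifs with h
      · exact mul_le_mul_of_nonneg_left (pow_le_pow_left₀ (hd.g0 i) h 2) (hd.w0 i)
      · exact mul_nonneg (hd.w0 i) (sq_nonneg _)
  have hs2 : Summable fun i => w i * (2 * (1 - Real.cos (g i * (1 / T)))) := by
    refine Summable.of_nonneg_of_le (fun i => ?_) (fun i => ?_) (hd.ws.mul_right 4)
    · refine mul_nonneg (hd.w0 i) ?_
      linarith [Real.cos_le_one (g i * (1 / T))]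
    · refine mul_le_mul_of_nonneg_left ?_ (hd.w0 i)
      linarith [Real.neg_one_le_cos (g i * (1 / T))]
  have h2 : Pool.Agent.H474.MS.AA w g T ≤ 4 * T ^ 2 * Pool.Agent.H474.MS.SS w g (1 / T) := by
    unfold Pool.Agent.H474.MS.AA Pool.Agent.H474.MS.SS
    rw [← tsum_mul_left]
    refine hs1.tsum_le_tsum (fun i => ?_) (hs2.mul_left _)
    split_ifs with h
    · have h3 : g i * (1 / T) ≤ 1 := by
        rw [mul_one_div, div_le_one hT0]
        exact h
      have h4 := cos_bd (mul_nonneg (hd.g0 i) (by positivity : (0 : ℝ) ≤ 1 / T)) h3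
      have h5 : g i ^ 2 = T ^ 2 * (g i * (1 / T)) ^ 2 := by
        field_simp
      rw [h5]
      calc w i * (T ^ 2 * (g i * (1 / T)) ^ 2)
          ≤ w i * (T ^ 2 * (4 * (2 * (1 - Real.cos (g i * (1 / T)))))) :=
            mul_le_mul_of_nonneg_left (mul_le_mul_of_nonneg_left h4 (sq_nonneg T)) (hd.w0 i)
        _ = 4 * T ^ 2 * (w i * (2 * (1 - Real.cos (g i * (1 / T))))) := by ring
    · refine mul_nonneg (by positivity) (mul_nonneg (hd.w0 i) ?_)
      linarith [Real.cos_le_one (g i * (1 / T))]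
  calc Pool.Agent.H474.MS.AA w g T ≤ 4 * T ^ 2 * Pool.Agent.H474.MS.SS w g (1 / T) := h2
    _ ≤ 4 * T ^ 2 * (C * (1 / T)) := mul_le_mul_of_nonneg_left h1 (by positivity)
    _ = 4 * C * T := by field_simp

end Pool.Agent.H118.MS.L10
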